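import Pool.Agent.Helper92_FL.R8

/-!
# R7: counting conditions and measurable sets with bounded support
-/

open MeasureTheory Set Cardinal

namespace Pool.Agent.FL

namespace H92

section

variable (J : Set Ix)

/-- the zero branch -/
def zBr : Br := fun m => ⟨0, sz_pos m⟩

open Classical in
/-- extension by zero -/
noncomputable def extP (z : J → Br) : Pt Ix := fun i => if h : i ∈ J then z ⟨i, h⟩ else zBr

theorem measurable_extP : Measurable (extP J) := by
  rw [measurable_pi_iff]
  intro i
  by_cases h : i ∈ J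
  · have : (fun z : J → Br => extP J z i) = fun z => z ⟨i, h⟩ := by
      funext z; simp [extP, h]
    rw [this]
    exact measurable_pi_apply _
  · have : (fun z : J → Br => extP J z i) = fun _ => zBr := by
      funext z; simp [extP, h]
    rw [this]
    exact measurable_const

theorem extP_restrict (y : Pt Ix) (i : Ix) (hi : i ∈ J) : extP J (fun j => y j.1) i = y i := by
  simp [extP, hi]

end

/-- families of maps to countably generated spaces -/
theorem card_meas_le {α κ : Type} (γ : κ → Type) [m : ∀ k, MeasurableSpace (γ k)]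
    [h : ∀ k, MeasurableSpace.CountablyGenerated (γ k)] (hκ : #κ ≤ Cardinal.continuum)
    (f : ∀ k, α → γ k) :
    #{s : Set α // MeasurableSet[⨆ k, (m k).comap (f k)] s} ≤ Cardinal.continuum := by
  have h1 : ∀ k, ∃ b : Set (Set (γ k)), b.Countable ∧ m k = MeasurableSpace.generateFrom b :=
    fun k => (h k).isCountablyGenerated
  choose b hb hm using h1
  have h2 : (⨆ k, (m k).comap (f k)) =
      MeasurableSpace.generateFrom (⋃ k, Set.preimage (f k) '' (b k)) := by
    rw [← MeasurableSpace.iSup_generateFrom]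
    congr 1
    funext k
    rw [← MeasurableSpace.comap_generateFrom]
    congr 1
    exact hm k
  rw [h2]
  refine MeasurableSpace.cardinal_measurableSet_le_continuum ?_
  refine (mk_iUnion_le _).trans ?_
  have h3 : (⨆ k, #(Set.preimage (f k) '' (b k))) ≤ ℵ₀ := by
    refine ciSup_le' fun k => ?_
    exact mk_image_le.trans (hb k).le_aleph0
  exact (mul_le_mul' hκ (h3.trans aleph0_le_continuum)).trans (by simp)

theorem card_ms_prod (J : Set Ix) (hJ : #J ≤ Cardinal.continuum) :
    #{s : Set ((J → Br) × ℝ) // MeasurableSet s} ≤ Cardinal.continuum := by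
  let γ : Option J → Type := fun o => match o with
    | none => ℝ
    | some _ => Br
  let _m : ∀ k, MeasurableSpace (γ k) := fun o => match o with
    | none => inferInstanceAs (MeasurableSpace ℝ)
    | some _ => inferInstanceAs (MeasurableSpace Br)
  have _h : ∀ k, MeasurableSpace.CountablyGenerated (γ k) := fun o => match o with
    | none => inferInstanceAs (MeasurableSpace.CountablyGenerated ℝ)
    | some _ => inferInstanceAs (MeasurableSpace.CountablyGenerated Br)
  let f : ∀ k, (J → Br) × ℝ → γ k := fun o => match o with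
    | none => fun z => z.2
    | some j => fun z => z.1 j
  have h1 := card_meas_le γ (by
    rw [mk_option]
    exact (add_le_add hJ (by simpa using (nat_lt_continuum 1).le)).trans (by simp)) f
  have h2 : (⨆ k, (_m k).comap (f k)) =
      (inferInstance : MeasurableSpace ((J → Br) × ℝ)) := by
    rw [iSup_option]
    change _ = MeasurableSpace.comap Prod.fst MeasurableSpace.pi ⊔
      MeasurableSpace.comap Prod.snd inferInstance
    rw [sup_comm, MeasurableSpace.pi, MeasurableSpace.comap_iSup]
    congr 1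
    congr 1
    funext j
    rw [MeasurableSpace.comap_comp]
    rfl
  rw [h2] at h1
  exact h1

theorem card_ms (J : Set Ix) (hJ : #J ≤ Cardinal.continuum) :
    #{s : Set (J → Br) // MeasurableSet s} ≤ Cardinal.continuum := by
  refine le_trans ?_ (card_ms_prod J hJ)
  refine mk_le_of_injective (f := fun s => ⟨Prod.fst ⁻¹' s.1, measurable_fst s.2⟩) ?_
  intro s t h
  have h1 := congrArg Subtype.val h
  apply Subtype.ext
  ext z
  have := congrArg (fun A : Set ((J → Br) × ℝ) => (z, (0 : ℝ)) ∈ A) h1
  exact iff_of_eq this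

theorem count_sets (β : Ix) : #{Z : Set (Pt Ix × ℝ) // MeasurableSet Z ∧
      ∀ x : ℝ, DepOn (Set.Iio β) {y | (y, x) ∈ Z}} ≤ Cardinal.continuum := by
  refine le_trans ?_ (card_ms_prod (Set.Iio β) (card_Iio_le _ β))
  have hmeas : Measurable (fun z : (Set.Iio β → Br) × ℝ => (extP (Set.Iio β) z.1, z.2)) :=
    ((measurable_extP _).comp measurable_fst).prodMk measurable_snd
  refine mk_le_of_injective
    (f := fun Z => ⟨(fun z : (Set.Iio β → Br) × ℝ => (extP (Set.Iio β) z.1, z.2)) ⁻¹' Z.1,
      hmeas Z.2.1⟩) ?_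
  rintro ⟨Z, hZ, hZ'⟩ ⟨W, hW, hW'⟩ h
  have h1 := congrArg Subtype.val h
  apply Subtype.ext
  ext ⟨y, x⟩
  have h2 := congrArg (fun A : Set ((Set.Iio β → Br) × ℝ) => ((fun j => y j.1), x) ∈ A) h1
  have h3 : (extP (Set.Iio β) (fun j => y j.1), x) ∈ Z ↔
      (extP (Set.Iio β) (fun j => y j.1), x) ∈ W := iff_of_eq h2
  have h4 := hZ' x y (extP (Set.Iio β) (fun j => y j.1))
    (fun i hi => (extP_restrict _ y i hi).symm)
  have h5 := hW' x y (extP (Set.Iio β) (fun j => y j.1))
    (fun i hi => (extP_restrict _ y i hi).symm)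
  exact h4.trans (h3.trans h5.symm)

theorem cond_ext {r r' : Cond Ix} (hS : r.S = r'.S) (hT : r.T = r'.T) : r = r' := by
  cases r; cases r'
  simp only at hS hT
  subst hS hT
  rfl

open Classical in
/-- enumeration of the support -/
noncomputable def enm (β : Ix) (r : {r : Cond Ix // r.S ⊆ Set.Iio β}) (n : ℕ) :
    Option (Set.Iio β) :=
  letI := r.1.scount.toEncodable
  (Encodable.decode (α := r.1.S) n).map (fun s => ⟨s.1, r.2 s.2⟩)

theorem mem_iff (β : Ix) (r : {r : Cond Ix // r.S ⊆ Set.Iio β}) (i : Set.Iio β) :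
    i.1 ∈ r.1.S ↔ ∃ n, enm β r n = some i := by
  letI := r.1.scount.toEncodable
  constructor
  · intro h
    refine ⟨Encodable.encode (⟨i.1, h⟩ : r.1.S), ?_⟩
    rw [enm, Encodable.encodek]
    rfl
  · rintro ⟨n, hn⟩
    rw [enm, Option.map_eq_some_iff] at hn
    obtain ⟨s, -, hs⟩ := hn
    rw [← hs]
    exact s.2

theorem count_conds (β : Ix) : #{r : Cond Ix // r.S ⊆ Set.Iio β} ≤ Cardinal.continuum := by
  let MS := {s : Set (Set.Iio β → Br) // MeasurableSet s}
  have hMS : #MS ≤ Cardinal.continuum := card_ms (Set.Iio β) (card_Iio_le _ β)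
  have hcode : #((ℕ → Option (Set.Iio β)) × (ℕ × Node → MS)) ≤ Cardinal.continuum := by
    rw [mk_prod, lift_id, lift_id]
    have h1 : #(ℕ → Option (Set.Iio β)) ≤ Cardinal.continuum := by
      rw [← power_def, mk_nat, mk_option]
      refine (power_le_power_right ?_).trans (le_of_eq continuum_power_aleph0)
      exact (add_le_add (card_Iio_le _ β) (by simpa using (nat_lt_continuum 1).le)).trans (by simp)
    have h2 : #(ℕ × Node → MS) ≤ Cardinal.continuum := by
      rw [← power_def]
      have : #(ℕ × Node) = ℵ₀ := mk_eq_aleph0 _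
      rw [this]
      exact (power_le_power_right hMS).trans (le_of_eq continuum_power_aleph0)
    exact (mul_le_mul' h1 h2).trans (by simp)
  refine le_trans ?_ hcode
  have hms : ∀ (r : {r : Cond Ix // r.S ⊆ Set.Iio β}) (n : ℕ) (s : Node),
      MeasurableSet {z : Set.Iio β → Br | ∃ i, enm β r n = some i ∧
        s ∈ r.1.T i.1 (extP (Set.Iio β) z)} := by
    intro r n s
    rcases h : enm β r n with _ | i
    · simp
    · have : {z : Set.Iio β → Br | ∃ i', some i = some i' ∧
          s ∈ r.1.T i'.1 (extP (Set.Iio β) z)} =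
          (fun z => r.1.T i.1 (extP (Set.Iio β) z)) ⁻¹' {T | s ∈ T} := by
        ext z
        simp
      rw [this]
      exact ((r.1.meas i.1).comp (measurable_extP _)) (measurableSet_mem_node s)
  refine mk_le_of_injective (f := fun r => (enm β r, fun x => ⟨_, hms r x.1 x.2⟩)) ?_
  intro r r' h
  have he : enm β r = enm β r' := congrArg Prod.fst h
  have hg := congrArg Prod.snd h
  have hS : r.1.S = r'.1.S := by
    ext i
    by_cases hi : i ∈ Set.Iio β
    · have h1 := mem_iff β r ⟨i, hi⟩
      have h2 := mem_iff β r' ⟨i, hi⟩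
      rw [he] at h1
      exact h1.trans h2.symm
    · exact ⟨fun h => absurd (r.2 h) hi, fun h => absurd (r'.2 h) hi⟩
  apply Subtype.ext
  refine cond_ext hS ?_
  funext i y
  by_cases hi : i ∈ r.1.S
  · have hi' : i ∈ r'.1.S := hS ▸ hi
    have hib : i ∈ Set.Iio β := r.2 hi
    obtain ⟨n, hn⟩ := (mem_iff β r ⟨i, hib⟩).1 hi
    have hn' : enm β r' n = some ⟨i, hib⟩ := by rw [← he]; exact hn
    have hy : r.1.T i y = r.1.T i (extP (Set.Iio β) (fun j => y j.1)) :=
      r.1.dep i _ _ fun j hj _ => (extP_restrict _ y j (r.2 hj)).symm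
    have hy' : r'.1.T i y = r'.1.T i (extP (Set.Iio β) (fun j => y j.1)) :=
      r'.1.dep i _ _ fun j hj _ => (extP_restrict _ y j (r'.2 hj)).symm
    rw [hy, hy']
    ext s
    have h1 := congrArg Subtype.val (congrFun hg (n, s))
    have h2 := congrArg (fun A : Set (Set.Iio β → Br) => (fun j => y j.1) ∈ A) h1
    have h3 : (∃ i', enm β r n = some i' ∧ s ∈ r.1.T i'.1 (extP (Set.Iio β) fun j => y j.1)) ↔
      (∃ i', enm β r' n = some i' ∧ s ∈ r'.1.T i'.1 (extP (Set.Iio β) fun j => y j.1)) :=
      iff_of_eq h2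
    rw [hn, hn'] at h3
    simpa using h3
  · rw [r.1.full' i hi, r'.1.full' i (hS ▸ hi)]

end H92

/-- R7 -/
theorem r7 : CountStmt := fun β => ⟨H92.count_conds β, H92.count_sets β⟩

end Pool.Agent.FL
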