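import Pool.Agent.Helper93_FL.RDefs

/-!
# R8: closure points of cofinality `ω₁` in the index set
-/

open MeasureTheory Set Cardinal

namespace Pool.Agent.FL

namespace H92

/-- the initial well order of a successor cardinal -/
abbrev XX (c : Cardinal.{0}) : Type := (Order.succ c).ord.ToType

theorem card_Iio_le (c : Cardinal.{0}) (x : XX c) : #(Set.Iio x) ≤ c := by
  have h : #(Set.Iio x) < #(XX c) := by
    apply mk_Iio_lt
    rw [mk_ord_toType]
    simp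
  rw [mk_ord_toType] at h
  exact Order.lt_succ_iff.1 h

theorem cof_XX (c : Cardinal.{0}) (hc : ℵ₀ ≤ c) : Order.cof (XX c) = Order.succ c := by
  rw [Ordinal.cof_toType]
  exact (isRegular_succ hc).cof_ord

theorem bdd_XX (c : Cardinal.{0}) (hc : ℵ₀ ≤ c) (ι : Type) (hι : #ι ≤ c) (h : ι → XX c) :
    ∃ b : XX c, ∀ i, h i < b := by
  by_contra hcon
  push Not at hcon
  have h1 : IsCofinal (Set.range h) := by
    intro b
    obtain ⟨i, hi⟩ := hcon b
    exact ⟨h i, ⟨i, rfl⟩, hi⟩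
  have h2 := Order.cof_le h1
  rw [cof_XX c hc] at h2
  have h3 : #(Set.range h) ≤ #ι := mk_range_le
  exact absurd (h2.trans (h3.trans hι)) (not_le.2 (Order.lt_succ c))

theorem closure_point (g : Ix → Ix) (β0 : Ix) : ∃ α : Ix, β0 < α ∧ (∀ β < α, g β < α) ∧
    ∀ C : Set Ix, C ⊆ Set.Iio α → C.Countable → ∃ β < α, C ⊆ Set.Iio β := by
  classical
  -- bounds for `g` on initial segments
  have hG : ∀ β : Ix, ∃ b : Ix, (∀ γ < β, g γ < b) ∧ β < b := by
    intro β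
    obtain ⟨b, hb⟩ := bdd_XX Cardinal.continuum aleph0_le_continuum (Set.Iio β)
      (card_Iio_le _ β) (fun γ => g γ.1)
    obtain ⟨b', hb'⟩ := bdd_XX Cardinal.continuum aleph0_le_continuum Unit
      (by simpa using nat_lt_continuum 1 |>.le) (fun _ => max b β)
    refine ⟨b', fun γ hγ => ?_, ?_⟩
    · exact (hb ⟨γ, hγ⟩).trans ((le_max_left _ _).trans_lt (hb' ()))
    · exact (le_max_right _ _).trans_lt (hb' ())
  choose G hG1 hG2 using hG
  let Ω := XX ℵ₀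
  have hΩ : ∀ ξ : Ω, #(Set.Iio ξ) ≤ ℵ₀ := card_Iio_le ℵ₀
  have hstep : ∀ (ξ : Ω) (f : Set.Iio ξ → Ix), ∃ b : Ix, β0 < b ∧ ∀ η, G (f η) < b := by
    intro ξ f
    obtain ⟨b, hb⟩ := bdd_XX Cardinal.continuum aleph0_le_continuum (Option (Set.Iio ξ))
      (by
        rw [mk_option]
        exact (add_le_add (hΩ ξ) le_rfl).trans (by simpa using aleph0_le_continuum))
      (fun o => match o with
        | none => β0
        | some η => G (f η))
    exact ⟨b, hb none, fun η => hb (some η)⟩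
  choose B hB1 hB2 using hstep
  let f : Ω → Ix := (wellFounded_lt (α := Ω)).fix (fun ξ ih => B ξ (fun η => ih η.1 η.2))
  have hf : ∀ ξ, f ξ = B ξ (fun η => f η.1) := by
    intro ξ
    exact (wellFounded_lt (α := Ω)).fix_eq _ ξ
  have hf0 : ∀ ξ, β0 < f ξ := fun ξ => by rw [hf ξ]; exact hB1 _ _
  have hfG : ∀ η ξ, η < ξ → G (f η) < f ξ := by
    intro η ξ h
    rw [hf ξ]
    exact hB2 ξ (fun η => f η.1) ⟨η, h⟩
  have hmono : ∀ η ξ, η < ξ → f η < f ξ := fun η ξ h => (hG2 _).trans (hfG η ξ h)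
  have hΩle : #Ω ≤ Cardinal.continuum := by
    rw [mk_ord_toType]
    exact Order.succ_le_of_lt aleph0_lt_continuum
  have hup : ∃ b : Ix, ∀ ξ, f ξ < b := bdd_XX Cardinal.continuum aleph0_le_continuum Ω hΩle f
  -- the least strict upper bound
  let α := (wellFounded_lt (α := Ix)).min {b | ∀ ξ, f ξ < b} hup
  have hα : ∀ ξ, f ξ < α := (wellFounded_lt (α := Ix)).min_mem {b | ∀ ξ, f ξ < b} hup
  have hα' : ∀ β < α, ∃ ξ, β ≤ f ξ := by
    intro β hβ
    by_contra hcon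
    push Not at hcon
    exact (wellFounded_lt (α := Ix)).not_lt_min {b | ∀ ξ, f ξ < b} hcon hβ
  have hbig : ∀ (ι : Type), #ι ≤ ℵ₀ → ∀ h : ι → Ω, ∃ b : Ω, ∀ i, h i < b :=
    fun ι hι h => bdd_XX ℵ₀ le_rfl ι hι h
  obtain ⟨ξ0, -⟩ := hbig Empty (by simp) (fun e => e.elim)
  refine ⟨α, (hf0 ξ0).trans (hα ξ0), fun β hβ => ?_, fun C hC hCc => ?_⟩
  · obtain ⟨ξ, hξ⟩ := hα' β hβ
    obtain ⟨ξ1, h1⟩ := hbig Unit (by simp) (fun _ => ξ)
    obtain ⟨ξ2, h2⟩ := hbig Unit (by simp) (fun _ => ξ1)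
    have h3 : β < f ξ1 := hξ.trans_lt (hmono _ _ (h1 ()))
    exact ((hG1 _ _ h3).trans (hfG _ _ (h2 ()))).trans (hα ξ2)
  · have h1 : ∀ c : C, ∃ ξ, c.1 ≤ f ξ := fun c => hα' c.1 (hC c.2)
    choose k hk using h1
    obtain ⟨ξ, hξ⟩ := hbig C (by
      have := hCc.to_subtype
      exact mk_le_aleph0) k
    refine ⟨f ξ, hα ξ, fun c hc => ?_⟩
    exact (hk ⟨c, hc⟩).trans_lt (hmono _ _ (hξ ⟨c, hc⟩))

end H92

/-- R8 -/
theorem r8 : ClosStmt :=
  ⟨fun ι hι h => H92.bdd_XX _ aleph0_le_continuum ι hι h, H92.closure_point⟩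

end Pool.Agent.FL
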