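import Pool.Agent.Helper93_FL.RDefs

/-!
# R2: facts on the modified tree
-/

open MeasureTheory Set

namespace Pool.Agent.FL

namespace H92

/-- the kept successors are at least one third beyond the node `τ` -/
theorem hat_mem_append {T : Set Node} {τ : Node} {x : Dg} {σ : Node} {a : ℕ}
    (hσ : σ ∈ hatT T τ x) (ha : σ ++ [a] ∈ T) (h1 : (σ ++ [a]) <+: τ ∨ τ <+: (σ ++ [a]))
    (h2 : τ.length ≤ σ.length → aliveAt T x σ → inJ σ.length ((x σ.length).val + a)) :
    σ ++ [a] ∈ hatT T τ x := by
  refine ⟨⟨ha, h1⟩, fun m hm h hal => ?_⟩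
  by_cases hm' : m < σ.length
  · rw [List.take_append_of_le_length hm'.le] at hal
    rw [List.getElem_append_left hm']
    exact hσ.2 m hm hm' hal
  · have h3 : m = σ.length := by simp at h; omega
    subst h3
    rw [List.take_append_of_le_length le_rfl, List.take_length] at hal
    have h4 : (σ ++ [a])[σ.length] = a := by simp
    rw [h4]
    exact h2 hm hal

theorem hat_down {T : Set Node} {τ : Node} {x : Dg} (hT : Good T) {σ : Node} {a : ℕ}
    (h : σ ++ [a] ∈ hatT T τ x) : σ ∈ hatT T τ x := by
  obtain ⟨⟨h1, h2⟩, h3⟩ := h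
  refine ⟨⟨hT.down _ _ h1, ?_⟩, fun m hm hm' hal => ?_⟩
  · rcases h2 with h2 | h2
    · exact Or.inl ((List.prefix_append _ _).trans h2)
    · rcases List.prefix_concat_iff.1 h2 with h4 | h4
      · left
        rw [h4]
        exact List.prefix_append _ _
      · exact Or.inr h4
  · have h4 := h3 m hm (by simp; omega)
    rw [List.take_append_of_le_length hm'.le, List.getElem_append_left hm'] at h4
    exact h4 hal

theorem suc_hat_card {T : Set Node} {τ : Node} {x : Dg} (hT : Good T) {σ : Node}
    (hσ : σ ∈ hatT T τ x) (hlen : τ.length ≤ σ.length) :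
    (suc T σ).card ≤ 3 * (suc (hatT T τ x) σ).card := by
  classical
  have hpre : τ <+: σ := by
    rcases hσ.1.2 with h | h
    · rw [h.eq_of_length (le_antisymm h.length_le hlen)]
    · exact h
  by_cases hal : aliveAt T x σ
  · have h1 : (suc T σ).filter (fun a => inJ σ.length ((x σ.length).val + a)) ⊆
        suc (hatT T τ x) σ := by
      intro a ha
      rw [Finset.mem_filter] at ha
      rw [mem_suc]
      exact ⟨(mem_suc.1 ha.1).1, hat_mem_append hσ (mem_suc.1 ha.1).2
        (Or.inr (hpre.trans (List.prefix_append _ _))) (fun _ _ => ha.2)⟩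
    have h2 := Finset.card_le_card h1
    have h3 : (suc T σ).card ≤
      3 * ((suc T σ).filter (fun a => inJ σ.length ((x σ.length).val + a))).card := by
      exact hal
    omega
  · have h1 : suc T σ ⊆ suc (hatT T τ x) σ := by
      intro a ha
      rw [mem_suc]
      exact ⟨(mem_suc.1 ha).1, hat_mem_append hσ (mem_suc.1 ha).2
        (Or.inr (hpre.trans (List.prefix_append _ _))) (fun _ h => absurd h hal)⟩
    have h2 := Finset.card_le_card h1
    omega

theorem good_hat {T : Set Node} {τ : Node} {x : Dg} (hT : Good T) (hτ : τ ∈ T) :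
    Good (hatT T τ x) where
  nil := ⟨⟨hT.nil, Or.inl (List.nil_prefix)⟩, fun m _ h => by simp at h⟩
  down σ a h := hat_down hT h
  bdd σ a h := hT.bdd σ a h.1.1
  ext σ hσ := by
    rcases le_or_gt τ.length σ.length with hlen | hlen
    · have h1 := suc_hat_card hT hσ hlen
      have h2 := Finset.card_pos.2 (hT.ext σ hσ.1.1)
      exact Finset.card_pos.1 (by omega)
    · have hpre : σ <+: τ := by
        rcases hσ.1.2 with h | h
        · exact h
        · exact absurd h.length_le (by omega)
      have h1 : σ ++ [τ[σ.length]] <+: τ := by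
        obtain ⟨l, rfl⟩ := hpre
        rcases l with _ | ⟨b, l⟩
        · simp at hlen
        · simp
      refine ⟨τ[σ.length], ?_⟩
      have h2 : σ ++ [τ[σ.length]] ∈ T := hT.mem_of_isPrefix h1 hτ
      rw [mem_suc]
      exact ⟨hT.bdd _ _ h2, hat_mem_append hσ h2 (Or.inl h1) (fun h => by omega)⟩
  norm k := by
    obtain ⟨m, hm⟩ := hT.norm (k + 2)
    refine ⟨max m τ.length, fun σ hσ hle => ?_⟩
    have h1 := hm σ hσ.1.1 ((le_max_left _ _).trans hle)
    have h2 := suc_hat_card hT hσ ((le_max_right _ _).trans hle)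
    have h3 : (σ.length + 2) ^ k * 3 ≤ (σ.length + 2) ^ (k + 2) := by
      rw [pow_add]
      refine Nat.mul_le_mul_left _ ?_
      nlinarith [Nat.zero_le σ.length]
    omega

theorem measurableSet_aliveAt (ρ : Node) :
    MeasurableSet {z : Set Node × Dg | aliveAt z.1 z.2 ρ} := by
  classical
  have : {z : Set Node × Dg | aliveAt z.1 z.2 ρ} =
      ⋃ A : Finset ℕ, {z : Set Node × Dg | suc z.1 ρ = A} ∩
        {z : Set Node × Dg | A.card ≤
          3 * (A.filter (fun a => inJ ρ.length ((z.2 ρ.length).val + a))).card} := by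
    ext z
    simp only [Set.mem_ofPred_eq, Set.mem_iUnion, Set.mem_inter_iff]
    constructor
    · intro h
      refine ⟨suc z.1 ρ, rfl, ?_⟩
      exact h
    · rintro ⟨A, h1, h2⟩
      subst h1
      exact h2
  rw [this]
  refine MeasurableSet.iUnion fun A => ((measurableSet_suc_eq ρ A).preimage measurable_fst).inter ?_
  have h2 : Measurable (fun z : Set Node × Dg => z.2 ρ.length) :=
    (measurable_pi_apply _).comp measurable_snd
  exact h2 (Set.to_countable {b : Fin (bs ρ.length) | A.card ≤
    3 * (A.filter (fun a => inJ ρ.length (b.val + a))).card}).measurableSet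

theorem measurable_hat (τ : Node) : Measurable (fun z : Set Node × Dg => hatT z.1 τ z.2) := by
  classical
  rw [measurable_set_iff]
  intro σ
  refine measurableSet_setOfPred.1 ?_
  have : {z : Set Node × Dg | σ ∈ hatT z.1 τ z.2} =
      {z | σ ∈ z.1} ∩ ({_z | σ <+: τ ∨ τ <+: σ} ∩
      ⋂ m : ℕ, {z | τ.length ≤ m → ∀ h : m < σ.length, aliveAt z.1 z.2 (σ.take m) →
        inJ m ((z.2 m).val + σ[m])}) := by
    ext z
    simp only [hatT, sub, Set.mem_ofPred_eq, Set.mem_inter_iff, Set.mem_iInter]
    tauto
  rw [this]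
  refine ((measurableSet_mem_node σ).preimage measurable_fst).inter
    ((MeasurableSet.const _).inter (MeasurableSet.iInter fun m => ?_))
  by_cases h1 : τ.length ≤ m
  · by_cases h2 : m < σ.length
    · have h3 : {z : Set Node × Dg | τ.length ≤ m → ∀ h : m < σ.length,
          aliveAt z.1 z.2 (σ.take m) → inJ m ((z.2 m).val + σ[m])} =
          {z : Set Node × Dg | aliveAt z.1 z.2 (σ.take m)}ᶜ ∪
          {z : Set Node × Dg | inJ m ((z.2 m).val + σ[m])} := by
        ext z
        simp only [Set.mem_ofPred_eq, Set.mem_union, Set.mem_compl_iff, h1, h2, true_imp_iff,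
          forall_true_left]
        tauto
      rw [h3]
      refine (measurableSet_aliveAt _).compl.union ?_
      have h4 : Measurable (fun z : Set Node × Dg => z.2 m) :=
        (measurable_pi_apply _).comp measurable_snd
      exact h4 (Set.to_countable {b : Fin (bs m) | inJ m (b.val + σ[m])}).measurableSet
    · simp [h2]
  · simp [h1]

end H92

/-- R2 -/
theorem r2 : R2Stmt := by
  classical
  refine ⟨fun T τ x hT hτ => ⟨H92.good_hat hT hτ, fun σ h => h.1⟩, ?_, H92.measurable_hat, ?_, ?_⟩
  · intro T τ x t hT hτ ht hal m hm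
    have h1 := (ht (m + 1)).2 m hm (by simp)
    rw [take_pre t (Nat.le_succ m), getElem_pre] at h1
    exact h1 (hal m hm)
  · intro n
    have : {z : (Set Node × Dg) × Br | alive z.1.1 n z.1.2 z.2} =
        ⋂ m : ℕ, {z : (Set Node × Dg) × Br | n ≤ m → aliveAt z.1.1 z.1.2 (pre z.2 m)} := by
      ext z
      simp [alive]
    rw [this]
    refine MeasurableSet.iInter fun m => ?_
    by_cases h : n ≤ m
    · have h2 : {z : (Set Node × Dg) × Br | n ≤ m → aliveAt z.1.1 z.1.2 (pre z.2 m)} =
          ⋃ σ : Node, {z : (Set Node × Dg) × Br | pre z.2 m = σ} ∩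
            {z : (Set Node × Dg) × Br | aliveAt z.1.1 z.1.2 σ} := by
        ext z
        simp [h]
      rw [h2]
      exact MeasurableSet.iUnion fun σ =>
        ((measurableSet_pre_eq m σ).preimage measurable_snd).inter
          ((H92.measurableSet_aliveAt σ).preimage measurable_fst)
    · simp [h]
  · intro n
    rw [measurable_pi_iff]
    intro m
    have h1 : Measurable (fun z : Dg × Br => (z.1 m, z.2 m)) :=
      ((measurable_pi_apply m).comp measurable_fst).prodMk
        ((measurable_pi_apply m).comp measurable_snd)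
    have h2 : Measurable (fun b : Fin (bs m) × Fin (sz m) =>
        (⟨(if m < n then s0 m else b.1.val + b.2.val) % bs m, Nat.mod_lt _ (bs_pos m)⟩ :
          Fin (bs m))) := measurable_of_countable _
    exact h2.comp h1

end Pool.Agent.FL
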