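import Pool.Agent.Helper92_FL.R8

/-!
# R9: every name of a non-null set is detected
-/

open MeasureTheory Set Cardinal

namespace Pool.Agent.FL

namespace H92

/-- the sets all of whose sections depend on a common countable set of coordinates -/
@[instance_reducible] def csAlg : MeasurableSpace (Pt Ix × ℝ) where
  MeasurableSet' Z := ∃ C : Set Ix, C.Countable ∧ ∀ x : ℝ, DepOn C {y | (y, x) ∈ Z}
  measurableSet_empty := ⟨∅, countable_empty, fun _ _ _ _ => Iff.rfl⟩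
  measurableSet_compl := by
    rintro Z ⟨C, hC, h⟩
    exact ⟨C, hC, fun x y y' hy => not_congr (h x y y' hy)⟩
  measurableSet_iUnion := by
    intro Z hZ
    choose C hC h using hZ
    refine ⟨⋃ n, C n, countable_iUnion hC, fun x y y' hy => ?_⟩
    change (y, x) ∈ ⋃ n, Z n ↔ (y', x) ∈ ⋃ n, Z n
    rw [mem_iUnion, mem_iUnion]
    exact exists_congr fun n => h n x y y' fun i hi => hy i (mem_iUnion.2 ⟨n, hi⟩)

theorem le_csAlg : (inferInstance : MeasurableSpace (Pt Ix × ℝ)) ≤ csAlg := by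
  change MeasurableSpace.comap Prod.fst MeasurableSpace.pi ⊔
      MeasurableSpace.comap Prod.snd inferInstance ≤ csAlg
  rw [MeasurableSpace.pi, MeasurableSpace.comap_iSup]
  refine sup_le (iSup_le fun i => ?_) ?_
  · rw [MeasurableSpace.comap_comp]
    rintro _ ⟨A, -, rfl⟩
    refine ⟨{i}, countable_singleton i, fun x y y' hy => ?_⟩
    change y i ∈ A ↔ y' i ∈ A
    rw [hy i rfl]
  · rintro _ ⟨A, -, rfl⟩
    exact ⟨∅, countable_empty, fun x y y' _ => Iff.rfl⟩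

theorem exists_supp {Z : Set (Pt Ix × ℝ)} (hZ : MeasurableSet Z) :
    ∃ C : Set Ix, C.Countable ∧ ∀ x : ℝ, DepOn C {y | (y, x) ∈ Z} := le_csAlg _ hZ

open Classical in
theorem exists_supp_in {Z : Set (Pt Ix × ℝ)} (hZ : MeasurableSet Z) (J : Set Ix)
    (hJ : ∀ x : ℝ, DepOn J {y | (y, x) ∈ Z}) :
    ∃ C ⊆ J, C.Countable ∧ ∀ x : ℝ, DepOn C {y | (y, x) ∈ Z} := by
  obtain ⟨C, hC, h⟩ := exists_supp hZ
  refine ⟨C ∩ J, inter_subset_right, hC.mono inter_subset_left, fun x y y' hy => ?_⟩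
  let z : Pt Ix := fun i => if i ∈ J then y i else y' i
  have h1 := hJ x y z fun i hi => by simp [z, hi]
  have h2 := h x z y' fun i hi => by
    by_cases hi' : i ∈ J
    · simp only [z, hi', if_true]; exact hy i ⟨hi, hi'⟩
    · simp [z, hi']
  exact h1.trans h2

theorem exists_supp_fun {f : Pt Ix → ℝ} (hf : Measurable f) :
    ∃ C : Set Ix, C.Countable ∧ DepFun C f := by
  have hZ : MeasurableSet {z : Pt Ix × ℝ | f z.1 < z.2} :=
    measurableSet_lt (hf.comp measurable_fst) measurable_snd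
  obtain ⟨C, hC, h⟩ := exists_supp hZ
  refine ⟨C, hC, fun y y' hy => ?_⟩
  have h1 : ∀ x : ℝ, f y < x ↔ f y' < x := fun x => h x y y' hy
  rcases lt_trichotomy (f y) (f y') with h2 | h2 | h2
  · exact absurd ((h1 _).1 h2) (lt_irrefl _)
  · exact h2
  · exact absurd ((h1 _).2 h2) (lt_irrefl _)

theorem mono_fun {C D : Set Ix} (h : C ⊆ D) {f : Pt Ix → ℝ} (hf : DepFun C f) : DepFun D f :=
  fun y y' hy => hf y y' fun i hi => hy i (h hi)

open Classical in
/-- the restriction with trimmed support -/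
noncomputable def trim (p : Cond Ix) (α : Ix) : Cond Ix where
  T := fun i y => if i ∈ Set.Iio α then p.T i y else full
  S := p.S ∩ Set.Iio α
  good := by
    intro i y
    split_ifs
    · exact p.good i y
    · exact good_full
  scount := p.scount.mono inter_subset_left
  full' := by
    intro i hi y
    split_ifs with h
    · exact p.full' i (fun h' => hi ⟨h', h⟩) y
    · rfl
  dep := by
    intro i y y' h
    split_ifs with hi
    · exact p.dep i y y' fun j hj hji => h j ⟨hj, hji.trans hi⟩ hji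
    · rfl
  meas := by
    intro i
    by_cases hi : i ∈ Set.Iio α
    · simpa [hi] using p.meas i
    · simp [hi]

theorem trim_body (p : Cond Ix) (α : Ix) : (trim p α).body = (p.restr (Set.Iio α)).body := by
  have h : (trim p α).T = (p.restr (Set.Iio α)).T := by
    funext i y
    by_cases h : i ∈ Set.Iio α
    · simp only [trim, Cond.restr, h, if_true]
    · simp only [trim, Cond.restr, h, if_false]
  unfold Cond.body
  rw [h]

end H92

open H92 in
/-- R9 -/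
theorem r9 (hA : ApiStmt) (hCore : CoreStmt) (h7 : CountStmt) (h8 : ClosStmt) : CTStmt := by
  classical
  intro rel hrel p hp
  have hcount : ∀ C : Set Ix, C.Countable → ∃ b : Ix, C ⊆ Set.Iio b := by
    intro C hC
    obtain ⟨b, hb⟩ := h8.1 C ((Cardinal.le_aleph0_iff_set_countable.2 hC).trans
      aleph0_le_continuum) (fun c => c.1)
    exact ⟨b, fun c hc => hb ⟨c, hc⟩⟩
  have step1 : ∀ (r : Cond Ix) (Z : Set (Pt Ix × ℝ)), ∃ b : Ix, r ≤ p → MeasurableSet Z →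
      (∀ y, volume {x | (y, x) ∈ Z} = 0) → ∃ q ≤ r, ∃ f : Pt Ix → ℝ, Measurable f ∧ rel q f ∧
        (∀ y ∈ q.body, (y, f y) ∉ Z) ∧ q.S ⊆ Set.Iio b ∧ DepFun (Set.Iio b) f := by
    intro r Z
    by_cases h : r ≤ p ∧ MeasurableSet Z ∧ (∀ y, volume {x | (y, x) ∈ Z} = 0)
    · obtain ⟨q, hq, f, hf, hr, hZ⟩ := hp r h.1 Z h.2.1 h.2.2
      obtain ⟨C, hC, hCf⟩ := exists_supp_fun hf
      obtain ⟨b, hb⟩ := hcount (q.S ∪ C) (q.scount.union hC)
      exact ⟨b, fun _ _ _ => ⟨q, hq, f, hf, hr, hZ, subset_union_left.trans hb,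
        mono_fun (subset_union_right.trans hb) hCf⟩⟩
    · obtain ⟨b, -⟩ := hcount ∅ countable_empty
      exact ⟨b, fun h1 h2 h3 => absurd ⟨h1, h2, h3⟩ h⟩
  choose b hb using step1
  have step2 : ∀ β : Ix, ∃ g : Ix, ∀ (r : {r : Cond Ix // r.S ⊆ Set.Iio β})
      (Z : {Z : Set (Pt Ix × ℝ) // MeasurableSet Z ∧
        ∀ x : ℝ, DepOn (Set.Iio β) {y | (y, x) ∈ Z}}), b r.1 Z.1 < g := by
    intro β
    obtain ⟨g, hg⟩ := h8.1 ({r : Cond Ix // r.S ⊆ Set.Iio β} ×
      {Z : Set (Pt Ix × ℝ) // MeasurableSet Z ∧ ∀ x : ℝ, DepOn (Set.Iio β) {y | (y, x) ∈ Z}})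
      (by
        rw [mk_prod, lift_id, lift_id]
        exact (mul_le_mul' (h7 β).1 (h7 β).2).trans (by simp))
      (fun z => b z.1.1 z.2.1)
    exact ⟨g, fun r Z => hg (r, Z)⟩
  choose g hg using step2
  obtain ⟨β0, hβ0⟩ := hcount p.S p.scount
  obtain ⟨α, hα0, hαg, hαC⟩ := h8.2 g β0
  refine ⟨α, fun p' hp' N hN hN0 => ?_⟩
  obtain ⟨Z, hZ, hZdep, hZ0, hZc⟩ := hCore Ix p' α N hN hN0
  obtain ⟨-, a2, a3, a4, -⟩ := hA Ix (Set.Iio α) (isLowerSet_Iio α)
  -- the trimmed condition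
  have hpB : p.Below (Set.Iio α) := fun i hi y =>
    p.full' i (fun h => hi ((hβ0 h).trans hα0)) y
  have hr1 : trim p' α ≤ p := by
    have h1 : p'.restr (Set.Iio α) ≤ p := (a3 p p' hp').trans (a4 p hpB).2
    rw [Cond.le_def] at h1 ⊢
    rw [trim_body]
    exact h1
  obtain ⟨β1, hβ1, h1⟩ := hαC (p'.S ∩ Set.Iio α) inter_subset_right
    (p'.scount.mono inter_subset_left)
  obtain ⟨C, hCJ, hCc, hCZ⟩ := exists_supp_in hZ (Set.Iio α) hZdep
  obtain ⟨β2, hβ2, h2⟩ := hαC C hCJ hCc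
  have hβ : max β1 β2 < α := max_lt hβ1 hβ2
  have hrS : (trim p' α).S ⊆ Set.Iio (max β1 β2) :=
    h1.trans (Set.Iio_subset_Iio (le_max_left _ _))
  have hZS : ∀ x : ℝ, DepOn (Set.Iio (max β1 β2)) {y | (y, x) ∈ Z} := fun x y y' hy =>
    hCZ x y y' fun i hi => hy i (Set.mem_Iio.2 (lt_of_lt_of_le (Set.mem_Iio.1 (h2 hi))
      (le_max_right _ _)))
  have hblt : b (trim p' α) Z < α :=
    (hg (max β1 β2) ⟨trim p' α, hrS⟩ ⟨Z, hZ, hZS⟩).trans (hαg _ hβ)
  obtain ⟨q1, hq1, f1, hf1, hrf, hav, hqS, hfS⟩ := hb (trim p' α) Z hr1 hZ hZ0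
  have hq1r : q1 ≤ p'.restr (Set.Iio α) := by
    rw [Cond.le_def] at hq1 ⊢
    rw [← trim_body]
    exact hq1
  obtain ⟨q, hqp, hqq, c, hc⟩ := hZc q1 hq1r
    (fun i hi y => q1.full' i (fun h => hi ((hqS h).trans hblt)) y) f1 hf1
    (mono_fun (Set.Iio_subset_Iio hblt.le) hfS) hav
  exact ⟨q, hqp, f1, hf1, hrel _ _ _ hqq hrf, c, hc⟩

end Pool.Agent.FL
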